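import Pool.Agent.Helper71.P4.St

/-!
# MP_3dd6d4_an, project P4: module NM (helper7)

`C_n(1/p) / ((p-1) n^{1-2/p})` at `p ≥ 8` is at least its value at `p = 8`.
-/

set_option autoImplicit false

open MeasureTheory Set Filter Topology
open scoped ENNReal

noncomputable section

namespace Helper71.P4

open Helper69.CR

/-- `log((n+1)/n) ≤ (n+1/2)/(n(n+1)+7/64)`. -/
private lemma log_bound_NM (n : ℝ) (hn : 1 ≤ n) :
    Real.log ((n + 1) / n) ≤ (n + 1 / 2) / (n * (n + 1) + 7 / 64) := by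
  have hn0 : 0 < n := by linarith
  have hr1 : 1 ≤ (n + 1) / n := by rw [le_div_iff₀ hn0]; linarith
  have hr0 : 0 < (n + 1) / n := by linarith
  obtain ⟨s, hs⟩ : ∃ s : ℝ, s = Real.log ((n + 1) / n) / 2 := ⟨_, rfl⟩
  have hs0 : 0 ≤ s := by
    have := Real.log_nonneg hr1
    rw [hs]; linarith
  have hlog : Real.log ((n + 1) / n) = 2 * s := by rw [hs]; ring
  have h1 : s ≤ Real.sinh s := Real.self_le_sinh_iff.mpr hs0
  rw [Real.sinh_eq] at h1
  have hE0 : 0 < Real.exp s := Real.exp_pos s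
  have hE2 : Real.exp s ^ 2 = (n + 1) / n := by
    rw [← Real.exp_nat_mul, ← Real.exp_log hr0, hlog]
    norm_num
  have hneg : Real.exp (-s) = (Real.exp s)⁻¹ := Real.exp_neg s
  rw [hneg] at h1
  have h2 : 2 * s ≤ (1 / n) / Real.exp s := by
    have h3 : Real.exp s - (Real.exp s)⁻¹ = (Real.exp s ^ 2 - 1) / Real.exp s := by
      field_simp
    have h4 : Real.exp s ^ 2 - 1 = 1 / n := by
      rw [hE2]; field_simp; ring
    rw [h4] at h3
    linarith only [h1, h3]
  rw [hlog]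
  refine h2.trans ?_
  rw [div_div, div_le_div_iff₀ (by positivity) (by positivity), one_mul]
  have h5 : (n * (n + 1) + 7 / 64) ^ 2 ≤ ((n + 1 / 2) * (n * Real.exp s)) ^ 2 := by
    have h6 : ((n + 1 / 2) * (n * Real.exp s)) ^ 2 = (n + 1 / 2) ^ 2 * n ^ 2 * Real.exp s ^ 2 := by
      ring
    rw [h6, hE2]
    have h7 : (n + 1 / 2) ^ 2 * n ^ 2 * ((n + 1) / n) = (n + 1 / 2) ^ 2 * (n * (n + 1)) := by
      field_simp
    rw [h7]
    nlinarith [mul_nonneg hn0.le hn0.le]
  exact (sq_le_sq₀ (by positivity) (by positivity)).mp h5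

/-- the comparison of one factor. -/
private lemma factor_NM (n : ℝ) (hn : 1 ≤ n) (x : ℝ) (hx0 : 0 < x) (hx : x ≤ 1 / 8) :
    (n + 1 - 1 / 8) / (n + 1 / 8) * (n / (n + 1)) ^ ((3 / 4) : ℝ) ≤
      (n + 1 - x) / (n + x) * (n / (n + 1)) ^ (1 - 2 * x) := by
  have hn0 : 0 < n := by linarith
  set L : ℝ := Real.log ((n + 1) / n) with hL
  have hLb : L ≤ (n + 1 / 2) / (n * (n + 1) + 7 / 64) := log_bound_NM n hn
  -- the logarithm of the factor
  let g : ℝ → ℝ := fun t => Real.log (n + 1 - t) - Real.log (n + t) - (1 - 2 * t) * L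
  have hder : ∀ t ∈ Icc (0 : ℝ) (1 / 8), HasDerivAt g
      ((-1) / (n + 1 - t) - 1 / (n + t) + 2 * L) t := by
    intro t ht
    have h1 : n + 1 - t ≠ 0 := by have := ht.2; intro h; linarith
    have h2 : n + t ≠ 0 := by have := ht.1; intro h; linarith
    have e1 : HasDerivAt (fun t : ℝ => Real.log (n + 1 - t)) ((-1) / (n + 1 - t)) t :=
      ((hasDerivAt_id t).const_sub (n + 1)).log h1
    have e2 : HasDerivAt (fun t : ℝ => Real.log (n + t)) (1 / (n + t)) t :=
      ((hasDerivAt_id t).const_add n).log h2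
    have e3 : HasDerivAt (fun t : ℝ => (1 - 2 * t) * L) ((-(2 * 1)) * L) t :=
      (((hasDerivAt_id t).const_mul 2).const_sub 1).mul_const L
    have e4 := (e1.sub e2).sub e3
    refine e4.congr_deriv ?_
    ring
  have hanti : AntitoneOn g (Icc (0 : ℝ) (1 / 8)) := by
    refine antitoneOn_of_deriv_nonpos (convex_Icc _ _)
      (fun t ht => (hder t ht).continuousAt.continuousWithinAt)
      (fun t ht => ?_) (fun t ht => ?_)
    · rw [interior_Icc] at ht
      exact (hder t ⟨ht.1.le, ht.2.le⟩).differentiableAt.differentiableWithinAt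
    · rw [interior_Icc] at ht
      rw [(hder t ⟨ht.1.le, ht.2.le⟩).deriv]
      have h1 : 0 < n + 1 - t := by linarith [ht.2]
      have h2 : 0 < n + t := by linarith [ht.1]
      have h3 : 1 / (n + 1 - t) + 1 / (n + t) = (2 * n + 1) / ((n + 1 - t) * (n + t)) := by
        field_simp; ring
      have h4 : (n + 1 - t) * (n + t) ≤ n * (n + 1) + 7 / 64 := by
        nlinarith [ht.1, ht.2]
      have h5 : (2 * n + 1) / (n * (n + 1) + 7 / 64) ≤ (2 * n + 1) / ((n + 1 - t) * (n + t)) := by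
        exact div_le_div_of_nonneg_left (by linarith) (by positivity) h4
      have h6 : (2 * n + 1) / (n * (n + 1) + 7 / 64) =
          2 * ((n + 1 / 2) / (n * (n + 1) + 7 / 64)) := by ring
      have h7 : (-1) / (n + 1 - t) = -(1 / (n + 1 - t)) := by ring
      rw [h7]
      linarith only [h3, h5, h6, hLb]
  have hg : g (1 / 8) ≤ g x := hanti ⟨hx0.le, hx⟩ ⟨by norm_num, le_rfl⟩ hx
  -- exponentiate
  have key : ∀ t : ℝ, 0 ≤ t → t ≤ 1 / 8 →
      (n + 1 - t) / (n + t) * (n / (n + 1)) ^ (1 - 2 * t) = Real.exp (g t) := by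
    intro t ht0 ht
    have h1 : 0 < n + 1 - t := by linarith
    have h2 : 0 < n + t := by linarith
    have h3 : 0 < n / (n + 1) := by positivity
    have h4 : Real.log (n / (n + 1)) = -L := by
      rw [hL, ← Real.log_inv, inv_div]
    rw [Real.rpow_def_of_pos h3, h4]
    have h5 : (n + 1 - t) / (n + t) = Real.exp (Real.log (n + 1 - t) - Real.log (n + t)) := by
      rw [Real.exp_sub, Real.exp_log h1, Real.exp_log h2]
    rw [h5, ← Real.exp_add]
    congr 1
    simp only [g]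
    ring
  have h8 := key (1 / 8) (by norm_num) le_rfl
  have hx' := key x hx0.le hx
  have h34 : (1 - 2 * (1 / 8) : ℝ) = 3 / 4 := by norm_num
  rw [h34] at h8
  rw [h8, hx']
  exact Real.exp_le_exp.mpr hg

private lemma ind_NM (x : ℝ) (hx0 : 0 < x) (hx : x ≤ 1 / 8) (n : ℕ) :
    Cn (n + 1) (1 / 8) / (7 * ((n + 1 : ℕ) : ℝ) ^ ((3 / 4) : ℝ)) ≤
      Cn (n + 1) x / ((1 / x - 1) * ((n + 1 : ℕ) : ℝ) ^ (1 - 2 * x)) := by
  have hx1 : 0 < 1 / x - 1 := by
    have : (8 : ℝ) ≤ 1 / x := by rw [le_div_iff₀ hx0]; linarith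
    linarith
  induction n with
  | zero =>
    have h1 : Cn (0 + 1) (1 / 8) = 7 := by
      unfold Cn; norm_num
    have h2 : Cn (0 + 1) x = 1 / x - 1 := by
      unfold Cn
      simp
      field_simp
    rw [h1, h2]
    simp
    rw [div_self]
    have : x⁻¹ - 1 = 1 / x - 1 := by rw [one_div]
    rw [this]
    exact hx1.ne'
  | succ n ih =>
    have hn : (1 : ℝ) ≤ ((n + 1 : ℕ) : ℝ) := by
      push_cast; linarith [Nat.cast_nonneg (α := ℝ) n]
    set m : ℝ := ((n + 1 : ℕ) : ℝ) with hm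
    have hm0 : 0 < m := by linarith
    have hcast : ((n + 1 + 1 : ℕ) : ℝ) = m + 1 := by rw [hm]; push_cast; ring
    have hC : ∀ t : ℝ, Cn (n + 1 + 1) t = Cn (n + 1) t * ((m + 1 - t) / (m + t)) := by
      intro t
      unfold Cn
      rw [Finset.prod_range_succ]
    have hf := factor_NM m hn x hx0 hx
    have hpos8 : 0 ≤ Cn (n + 1) (1 / 8) / (7 * m ^ ((3 / 4) : ℝ)) := by
      refine div_nonneg (Finset.prod_nonneg fun k _ => ?_) (by positivity)
      have := Nat.cast_nonneg (α := ℝ) k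
      exact div_nonneg (by linarith) (by linarith)
    have hfx : 0 ≤ (m + 1 - x) / (m + x) * (m / (m + 1)) ^ (1 - 2 * x) := by
      refine mul_nonneg (div_nonneg (by linarith) (by linarith)) (by positivity)
    have hf8 : 0 ≤ (m + 1 - 1 / 8) / (m + 1 / 8) * (m / (m + 1)) ^ ((3 / 4) : ℝ) := by
      refine mul_nonneg (div_nonneg (by linarith) (by linarith)) (by positivity)
    have e : ∀ (c t r : ℝ), (Cn (n + 1) t * ((m + 1 - t) / (m + t))) / (c * (m + 1) ^ r) =
        Cn (n + 1) t / (c * m ^ r) * ((m + 1 - t) / (m + t) * (m / (m + 1)) ^ r) := by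
      intro c t r
      rw [Real.div_rpow hm0.le (by linarith)]
      have h1 : m ^ r ≠ 0 := (Real.rpow_pos_of_pos hm0 r).ne'
      have h2 : (m + 1) ^ r ≠ 0 := (Real.rpow_pos_of_pos (by linarith) r).ne'
      by_cases hc : c = 0
      · subst hc; simp
      · field_simp
    rw [hcast, hC, hC, e, e]
    exact mul_le_mul ih hf hf8 (hpos8.trans ih)

theorem hNM : StNM := by
  intro n p hn hp
  obtain ⟨m, rfl⟩ : ∃ m, n = m + 1 := ⟨n - 1, by omega⟩
  have hp0 : 0 < p := by linarith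
  have hx0 : 0 < 1 / p := by positivity
  have hx : 1 / p ≤ 1 / 8 := by
    rw [div_le_div_iff₀ hp0 (by norm_num)]; linarith
  have h := ind_NM (1 / p) hx0 hx m
  have e1 : 1 / (1 / p) - 1 = p - 1 := by rw [one_div_one_div]
  have e2 : 1 - 2 * (1 / p) = 1 - 2 / p := by ring
  rw [e1, e2] at h
  exact h

end Helper71.P4
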